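import Pool.Agent.helper80.HM.SpecA

set_option autoImplicit false

namespace Pool.Agent.HM

open Finset Pool.Agent.helper33.Mod

theorem BKS (hAVO : AVO_stmt) (hAVG : AVG_stmt) : BKS_stmt := by
  intro M k V T X n' m τ hTV hX hτ hTk hkn hkm hmV hsp hbig
  have main : ∀ m' : ℕ, m' ≤ m → ∃ U : ℕ → Finset (Fin M),
      (∀ b < m', U b ⊆ V \ T ∧ (U b).card = n' ∧ τ * (KS k (U b ∪ T) T).card < (Xb X (U b) T).card) ∧
      ∀ b < m', ∀ b' < m', b ≠ b' → Disjoint (U b) (U b') := by
    intro m'
    induction m' with
    | zero =>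
      intro _
      exact ⟨fun _ => ∅, fun b hb => absurd hb (Nat.not_lt_zero b), fun b hb => absurd hb (Nat.not_lt_zero b)⟩
    | succ m' ih =>
      intro hm'
      obtain ⟨U, hU1, hU2⟩ := ih (by omega)
      set R : Finset (Fin M) := (range m').biUnion U with hR
      have hRs : R ⊆ V \ T := by
        intro v hv
        obtain ⟨b, hb, hvb⟩ := mem_biUnion.1 hv
        exact (hU1 b (mem_range.1 hb)).1 hvb
      have hRc : R.card ≤ m' * n' := by
        calc R.card ≤ ∑ b ∈ range m', (U b).card := card_biUnion_le
          _ = ∑ b ∈ range m', n' := sum_congr rfl fun b hb => (hU1 b (mem_range.1 hb)).2.1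
          _ = m' * n' := by simp
      have hVT : (V \ T).card = V.card - T.card := card_sdiff_of_subset hTV
      have hRm : R.card ≤ m * n' := hRc.trans (Nat.mul_le_mul_right _ (by omega))
      have h1 := hAVO V T R X hTV hRs hX ((Nat.mul_le_mul_left _ hRm).trans hkm) hsp
      set X' := flt X (fun Q => Disjoint Q R) with hX'
      set W : Finset (Fin M) := (V \ T) \ R with hW
      have hWT : Disjoint W T := by
        rw [Finset.disjoint_left]
        intro v hv
        exact (mem_sdiff.1 (mem_sdiff.1 hv).1).2
      have hWc : W.card = (V \ T).card - R.card := card_sdiff_of_subset hRs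
      have hmm : m' * n' + n' ≤ (m + 1) * n' := by
        calc m' * n' + n' = (m' + 1) * n' := by ring
          _ ≤ (m + 1) * n' := Nat.mul_le_mul_right _ (by omega)
      have hWn : n' ≤ W.card := by
        rw [hWc, hVT]
        omega
      have hX'1 : X' ⊆ KS k (W ∪ T) T := by
        intro Q hQ
        obtain ⟨hQ1, hQ2⟩ := mem_flt.1 hQ
        obtain ⟨h3, h4, h5⟩ := mem_KS.1 (hX hQ1)
        refine mem_KS.2 ⟨?_, h4, h5⟩
        intro v hv
        by_cases hvT : v ∈ T
        · exact mem_union_right _ hvT
        · refine mem_union_left _ (mem_sdiff.2 ⟨mem_sdiff.2 ⟨h3 hv, hvT⟩, ?_⟩)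
          exact Finset.disjoint_left.1 hQ2 hv
      have hWV : W ∪ T ⊆ V := by
        intro v hv
        rcases mem_union.1 hv with h | h
        · exact (mem_sdiff.1 (mem_sdiff.1 h).1).1
        · exact hTV h
      have hKc : ((KS k (W ∪ T) T).card : ℝ) ≤ (KS k V T).card := by
        exact_mod_cast card_le_card fun Q hQ => by
          obtain ⟨h3, h4, h5⟩ := mem_KS.1 hQ
          exact mem_KS.2 ⟨h3.trans hWV, h4, h5⟩
      have h2 : τ * (KS k (W ∪ T) T).card < X'.card := by
        have h3 := mul_le_mul_of_nonneg_left hKc hτ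
        linarith
      obtain ⟨U', hU'1, hU'2, hU'3⟩ := hAVG W T X' n' τ hWT hTk hkn hWn hX'1 h2
      have hXX : ((Xb X' U' T).card : ℝ) ≤ (Xb X U' T).card := by
        exact_mod_cast card_le_card fun Q hQ => by
          obtain ⟨h3, h4⟩ := mem_Xb.1 hQ
          exact mem_Xb.2 ⟨(mem_flt.1 h3).1, h4⟩
      have hdis : ∀ b < m', Disjoint (U b) U' := by
        intro b hb
        rw [Finset.disjoint_left]
        intro v hv hv'
        exact (mem_sdiff.1 (hU'1 hv')).2 (mem_biUnion.2 ⟨b, mem_range.2 hb, hv⟩)
      refine ⟨fun b => if b = m' then U' else U b, ?_, ?_⟩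
      · intro b hb
        by_cases hbm : b = m'
        · simp only [hbm, if_true]
          exact ⟨hU'1.trans sdiff_subset, hU'2, lt_of_lt_of_le hU'3 hXX⟩
        · simp only [hbm, if_false]
          exact hU1 b (by omega)
      · intro b hb b' hb' hne
        by_cases hbm : b = m'
        · have hbm' : b' ≠ m' := fun h => hne (hbm.trans h.symm)
          simp only [hbm, if_true, hbm', if_false]
          exact (hdis b' (by omega)).symm
        · by_cases hbm' : b' = m'
          · simp only [hbm, if_false, hbm', if_true]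
            exact hdis b (by omega)
          · simp only [hbm, hbm', if_false]
            exact hU2 b (by omega) b' (by omega) hne
  exact main m le_rfl

end Pool.Agent.HM
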