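import Pool.Agent.helper80.HM.SpecB

set_option autoImplicit false

namespace Pool.Agent.HM

open Finset Pool.Agent.helper33.Mod

theorem LIN (hCLO : CLO_stmt) (hEET : EET_stmt) : LIN_stmt := by
  intro M a t S k c σ l L N g lv d V β F i e hPar hg
  obtain ⟨-, -, hc, -, hl2, hlL, -⟩ := hEET hPar
  have hLc : L ^ 2 ≤ c := by
    have h1 := hPar.hc
    omega
  obtain ⟨B, hB⟩ := hCLO (M := M) (c := c) (L := L) (N := N)
    (fun h : Fin M → Fin c => g i (orI (gV V h) β) = true) hc hLc
  have hz : ∀ P : (Fin M → Fin c) → Prop, (∀ x, ¬ P x) → cn P ≤ (1 / 2) ^ N * (c : ℝ) ^ M := by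
    intro P hP
    rw [cn_eq_zero hP]
    positivity
  refine ⟨B, ⟨⟨fun h => Acc B h ∧ ¬ (g i (orI (gV V h) β) = true), hB.neg, ?_⟩, ?_⟩⟩
  · intro h _ hacc hP
    rw [Function.update_self] at hacc
    by_contra hcon
    obtain ⟨K, hK, -, hi⟩ := hacc
    exact hP ⟨⟨K, hK, hi⟩, hcon⟩
  · intro T _ _
    refine ⟨∅, ?_, ?_⟩
    · simp only [card_empty, Nat.cast_zero, mul_zero]
      unfold tau
      positivity
    · intro Q hQ _ hgi _
      rw [Function.update_self]
      rw [hg] at hgi
      by_cases hβ : β e = true
      · refine ⟨∅, ?_, by simp, by simp⟩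
        apply hB.mem ∅ (by simp)
        apply hz
        rintro h ⟨-, hn, -⟩
        apply hn
        rw [hg]
        unfold orI
        rw [hβ, Bool.or_true]
      · have hq : gQ Q e = true := by
          unfold orI at hgi
          rcases Bool.or_eq_true_iff.1 hgi with h | h
          · exact h
          · exact absurd h hβ
        obtain ⟨hu, hv, huv⟩ : (finProdFinEquiv.symm e).1 ∈ Q ∧ (finProdFinEquiv.symm e).2 ∈ Q ∧
            (finProdFinEquiv.symm e).1 ≠ (finProdFinEquiv.symm e).2 := by
          unfold gQ at hq
          exact of_decide_eq_true hq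
        have hQV := (mem_KS.1 hQ).1
        have hcard : ({(finProdFinEquiv.symm e).1, (finProdFinEquiv.symm e).2} : Finset (Fin M)).card = 2 :=
          card_pair huv
        refine ⟨{(finProdFinEquiv.symm e).1, (finProdFinEquiv.symm e).2}, ?_, by omega, ?_⟩
        · apply hB.mem _ (by omega)
          apply hz
          rintro h ⟨hi, hn, -⟩
          apply hn
          rw [hg]
          have h1 : gV V h e = true := by
            unfold gV
            rw [decide_eq_true_eq]
            refine ⟨hQV hu, hQV hv, fun heq => huv (hi ?_ ?_ heq)⟩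
            · simp
            · simp
          unfold orI
          rw [h1, Bool.true_or]
        · intro w hw
          rcases mem_insert.1 hw with h | h
          · rw [h]; exact hu
          · rw [mem_singleton.1 h]; exact hv

end Pool.Agent.HM
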